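import Pool.Agent.H329.LC.Lists
import Pool.Agent.H329.LC.Sel

/-!
# The `p`-parity conjecture for semistable elliptic curves: equivalence with the case of curves that look
CM and have large rank

`K` is a number field, `E` a semistable elliptic curve over `K`, `L` a finite Galois extension of `K`, `S` a
finite set of primes of `K` and `R`, `N` natural numbers.  `E` looks CM modulo `m`
if there is an endomorphism `φ` of the group `E[m]` which does not act as an integer on `E[ℓ]` for any
prime `ℓ ∣ m`, such that for every `σ` in the absolute Galois group there are integers `a` and `b` with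
`σ φ σ⁻¹ = a + b φ` on `E[m]`; modulo a prime `ℓ` it means that the image of the Galois group in
`Aut(E[ℓ])` is contained in a Borel subgroup or in the normaliser of a Cartan subgroup.

The proof.  By Brauer induction with denominators prime to `2` a relation `∑ e_j [F_j] = m [K]` with an
odd integer `m` holds between permutation characters, where the Galois groups of `L' F_j / F_j` are
`2`-hyperelementary for a given finite Galois extension `L'` of `K`, the local degrees at `S` are
divisible by `n` and the ranks of the groups `E(F_j)` are at least `R` if `j(E) ≠ 0, 1728`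
(`Pool.Agent.N683.H2`).  With
`L' ⊇ K(E[N²])` the curve `E` looks CM over `F_j` modulo the divisors of `N` that are not divisible by `4`
(`Pool.Agent.H453.CM`).  The relation is combined with the relations for the coranks of the `p`-infinity
Selmer groups, the numbers of archimedean places and of split multiplicative primes.

The Selmer groups and the root number are those of `MP_ddf76b_nt.SelmerInduction` in the library: the
Selmer groups are defined by cocycles with values in `E(Ω)[p^∞]` for an algebraic closure `Ω`; the
root number of a semistable curve is `(-1) ^ (m + u)`, where `m` is the number of the primes of split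
multiplicative reduction and `u` the number of the archimedean places.
-/

set_option autoImplicit false

namespace Pool.Agent.Results.MP_ddf76b_nt.LooksCMSelmerParity

open NumberField IsDedekindDomain
open Pool.Agent.R433.MD (Ext)
open Pool.Agent.N19.BR.FDef (TwoClass)
open Pool.Agent.H329.LC
open Pool.Agent.Results.MP_ddf76b_nt.SelmerInduction (Semistable PParity selmerRank galAct
  rootNumber)
open Pool.Agent.R333.Sel (resAct)
open scoped Classical

/-- The formula `(-1)^{rk_p(E/K)} w(E/K) = ∏_{j ∈ J} (-1)^{rk_p(E/F_j)} w(E/F_j)` for the `p`-infinity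
Selmer ranks and the root numbers: if the Selmer ranks over the fields `F_j` are natural numbers `r_j`,
then the Selmer rank over `K` is a natural number and the formula holds. -/
def SelmerFormula (p : ℕ) [Fact p.Prime] {K Ω : Type} [Field K] [NumberField K] [Field Ω]
    [Algebra K Ω] (E : WeierstrassCurve K) {k : ℕ} (F : Fin k → IntermediateField K Ω)
    [∀ j, NumberField (F j)] (J : Finset (Fin k)) : Prop :=
  ∀ r : Fin k → ℕ, (∀ j, selmerRank p (resAct (galAct E Ω) (F j)) = r j) →
    ∃ r₀ : ℕ, selmerRank p (resAct (galAct E Ω) K) = r₀ ∧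
      (-1 : ℤ) ^ r₀ * rootNumber E =
        ∏ j ∈ J, (-1) ^ r j * rootNumber (E.map (algebraMap K (F j)))

/-- The list of fields, in the algebraic closure `Ω` of `K`: `E(F_j)` has rank at least `R` (if
`j(E) ≠ 0, 1728`), `E` looks CM over `F_j` modulo all divisors of `N` that are not divisible by `4`,
`2`-hyperelementary Galois groups and local degrees divisible by `n`. -/
def Reduction (K Ω : Type) [Field K] [NumberField K] [Field Ω] [Algebra K Ω] [IsAlgClosure K Ω]
    (E : WeierstrassCurve K) [E.IsElliptic] (L : Type) [Field L] [Algebra K L]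
    (S : Set (HeightOneSpectrum (𝓞 K))) (n N R : ℕ) : Prop :=
  ∃ (k : ℕ) (F : Fin k → IntermediateField K Ω) (_ : ∀ j, NumberField (F j)) (J : Finset (Fin k)),
    (∀ j, RankIfGeneral R E (⟨F j⟩ : Ext K) ∧
      LooksCMTwo (E.map (algebraMap K (F j))) N ∧ TwoClass L S n (⟨F j⟩ : Ext K)) ∧
    ∀ (p : ℕ) [Fact p.Prime],
      SelmerFormula p E F J ∧ ((∀ j, PParity p Ω E (F j)) → PParity p Ω E K)

section aux

open Pool.Agent.N19.BR Pool.Agent.N19.BR.Def
open Pool.Agent.N19.BR.FDef hiding Semistable rootNumber

variable {K : Type} [Field K] [NumberField K]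

omit [NumberField K] in
/-- the rank over an isomorphic copy -/
theorem rank_copy (E : WeierstrassCurve K) {F F' : Type} [Field F] [Algebra K F] [Field F']
    [Algebra K F'] (f : F →ₐ[K] F') :
    Module.rank ℤ (E.map (algebraMap K F)).toAffine.Point ≤
      Module.rank ℤ (E.map (algebraMap K F')).toAffine.Point := by
  let t := (WeierstrassCurve.Affine.Point.map (W' := E) f).toIntLinearMap
  exact LinearMap.rank_le_of_injective t (WeierstrassCurve.Affine.Point.map_injective _)

/-- the class of an isomorphic copy -/
theorem two_copy (Z : Ext K) {F : Type} [Field F] [NumberField F] [Algebra K F] (e : Z.F ≃ₐ[K] F)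
    {L : Type} [Field L] [Algebra K L] {S : Set (HeightOneSpectrum (𝓞 K))} {n : ℕ}
    (h : TwoClass L S n Z) : TwoClass L S n (⟨F⟩ : Ext K) := by
  obtain ⟨Y, hY, -⟩ := copy_eq Z (e : Z.F →ₐ[K] F)
  obtain ⟨h1, h2⟩ := h
  refine ⟨?_, ?_⟩
  · have h5 := cyc_restrict Z Y (cyc_of_hyperOver Nat.prime_two h1)
    rw [hY] at h5
    exact hyperOver_of Nat.prime_two h5
  · have h4 := loc_restrict (S := S) (a := n) Z Y h2 (loc_one _ Y.F)
    rw [mul_one, hY] at h4
    exact h4

end aux

/-- **Parity of Selmer ranks and elliptic curves that look CM.**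

(1) Let `E` be a semistable elliptic curve over a number field `K`, `Ω` an algebraic closure of `K`, `L/K`
a finite Galois extension, `S` a finite set of primes of `K`, `n` an odd positive integer, `N` a positive
integer and `R` a natural number.  There are finitely many finite extensions `F_j` of `K` in `Ω` such that
* `E(F_j)` has rank at least `R`, if `j(E) ≠ 0, 1728`;
* `E` looks CM over `F_j` modulo every divisor `m` of `N` with `4 ∤ m`;
* the Galois groups of `L F_j / F_j` are `2`-hyperelementary, and `n` divides the local degrees of all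
  `F_j / K` at the primes above `S`;
* for a set `J` of indices and all prime numbers `p`,
  `(-1)^{rk_p(E/K)} w(E/K) = ∏_{j ∈ J} (-1)^{rk_p(E/F_j)} w(E/F_j)`;
* for all prime numbers `p`: if the `p`-parity conjecture holds for `E` over all `F_j`, then it holds for
  `E` over `K`.

(2) For every prime number `p`, every natural number `R` and every `N ≥ 1` that is not divisible by `4`:
the `p`-parity conjecture holds for all semistable elliptic curves over all number fields if and only if
it holds for those which look CM modulo `N` and have rank at least `R` or `j = 0` or `j = 1728`. -/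
theorem result :
    (∀ (K Ω : Type) [Field K] [NumberField K] [Field Ω] [Algebra K Ω] [IsAlgClosure K Ω]
      (E : WeierstrassCurve K) [E.IsElliptic], Semistable E →
      ∀ (L : Type) [Field L] [NumberField L] [Algebra K L] [IsGalois K L]
      (S : Set (HeightOneSpectrum (𝓞 K))), S.Finite → ∀ n : ℕ, Odd n → ∀ N : ℕ, N ≠ 0 →
      ∀ R : ℕ, Reduction K Ω E L S n N R) ∧
    ∀ (p : ℕ) [Fact p.Prime] (N : ℕ), ¬ 4 ∣ N → ∀ R : ℕ,
      ((∀ (K Ω : Type) [Field K] [NumberField K] [Field Ω] [Algebra K Ω] [IsAlgClosure K Ω]
        (E : WeierstrassCurve K) [E.IsElliptic], Semistable E → PParity p Ω E K) ↔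
      ∀ (K Ω : Type) [Field K] [NumberField K] [Field Ω] [Algebra K Ω] [IsAlgClosure K Ω]
        (E : WeierstrassCurve K) [E.IsElliptic], Semistable E → LooksCM E N →
        ((R : Cardinal) ≤ Module.rank ℤ E.toAffine.Point ∨ E.j = 0 ∨ E.j = 1728) →
        PParity p Ω E K) := by
  have main : ∀ (K Ω : Type) [Field K] [NumberField K] [Field Ω] [Algebra K Ω] [IsAlgClosure K Ω]
      (E : WeierstrassCurve K) [E.IsElliptic], Semistable E →
      ∀ (L : Type) [Field L] [NumberField L] [Algebra K L] [IsGalois K L]
      (S : Set (HeightOneSpectrum (𝓞 K))), S.Finite → ∀ n : ℕ, Odd n → ∀ N : ℕ, N ≠ 0 →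
      ∀ R : ℕ, Reduction K Ω E L S n N R := by
    intro K Ω _ _ _ _ _ E hE hs L _ _ _ _ S hS n hn N hN R
    have hcl : IsAlgClosed Ω := IsAlgClosure.isAlgClosed K
    -- the fields in `Ω`
    have key : ∃ (k : ℕ) (F : Fin k → IntermediateField K Ω) (_ : ∀ j, NumberField (F j))
        (e : Fin k → ℤ) (m : ℕ), Odd m ∧
        Pool.Agent.N19.BR.IsRel K (fun j => (⟨F j⟩ : Ext K)) e m ∧
        ∀ j, RankIfGeneral R E (⟨F j⟩ : Ext K) ∧ LooksCMTwo (E.map (algebraMap K (F j))) N ∧
          TwoClass L S n (⟨F j⟩ : Ext K) := by
      obtain ⟨L', _, _, _, _, hL'⟩ := exists_big E L N hN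
      obtain ⟨k, Z, e, m, hm, hrel, hZ⟩ := looks_two E L' hS hn hN R
      let f : ∀ j, (Z j).F →ₐ[K] Ω := fun j => IsAlgClosed.lift
      let F : Fin k → IntermediateField K Ω := fun j => (f j).fieldRange
      let g : ∀ j, (Z j).F ≃ₐ[K] F j := fun j => AlgEquiv.ofInjectiveField (f j)
      have hfin : ∀ j, FiniteDimensional K (F j) := fun j =>
        Module.Finite.equiv (g j).toLinearEquiv
      have hnf : ∀ j, NumberField (F j) := fun j => NumberField.of_module_finite K (F j)
      refine ⟨k, F, hnf, e, m, hm, ?_, fun j => ⟨fun h0 h1 => ?_, ?_, ?_⟩⟩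
      · intro Ω' _ _ _ σ
        rw [← hrel Ω' σ]
        refine Finset.sum_congr rfl fun j _ => ?_
        rw [Pool.Agent.N19.BR.cnt_copy (g j) σ]
      · exact ((hZ j).1 h0 h1).trans
          (rank_copy E ((g j : (Z j).F ≃ₐ[K] _) : (Z j).F →ₐ[K] F j))
      · intro m hm h4
        exact (hL' 2 Nat.prime_two (⟨F j⟩ : Ext K) (two_copy (Z j) (g j) (hZ j).2.2).1).2 m hm
          (by simpa using h4)
      · have h1 := two_copy (Z j) (g j) (hZ j).2.2
        exact ⟨(hL' 2 Nat.prime_two (⟨F j⟩ : Ext K) h1.1).1, h1.2⟩
    obtain ⟨k, F, _, e, m, hm, hrel, hF⟩ := key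
    have hform : ∀ (p : ℕ) [Fact p.Prime],
        SelmerFormula p E F (Finset.univ.filter fun i => Odd (e i)) := by
      intro p _ r hr
      exact sel_formula p hE hs hm hrel r hr
    refine ⟨k, F, inferInstance, Finset.univ.filter fun i => Odd (e i), hF,
      fun p _ => ⟨hform p, fun h => ?_⟩⟩
    choose r hr1 hr2 using h
    obtain ⟨r0, h1, h2⟩ := hform p r hr1
    refine ⟨r0, h1, ?_⟩
    have e1 : E.map (algebraMap K K) = E := E.map_id
    rw [e1, ← mul_root, h2]
    refine Finset.prod_eq_one fun j _ => ?_
    rw [mul_root]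
    exact hr2 j
  refine ⟨main, fun p _ N h4 R => ⟨fun h K Ω _ _ _ _ _ E _ hs _ _ => h K Ω E hs,
    fun h K Ω _ _ _ _ _ E _ hs => ?_⟩⟩
  have hN : N ≠ 0 := fun h => h4 (h ▸ dvd_zero 4)
  obtain ⟨k, F, _, J, hF, h2⟩ := main K Ω E hs K ∅ Set.finite_empty 1 odd_one N hN R
  refine (h2 p).2 fun j => ?_
  have _ : IsAlgClosure (F j) Ω :=
    Pool.Agent.Results.MP_ddf76b_nt.SpecialFields.closure_top K (F j) Ω
  rw [← Pool.Agent.Results.MP_ddf76b_nt.SpecialFields.pparity_tr (F := F j) p E]
  exact h (F j) Ω _ (Pool.Agent.Results.MP_ddf76b_nt.SelmerInduction.semi_map hs)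
    ((hF j).2.1.self h4) (general_iff (hF j).1)

end Pool.Agent.Results.MP_ddf76b_nt.LooksCMSelmerParity
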